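import Pool.Agent.Results.MP_5317dd_nt.SharpPowerSaving
import Pool.Agent.X67.GD.Steps

/-!
# Wiggin's maps `F_D`: ALL integers in windows around generic dilates descend below bounds independent of their size

Let `v_n`, `ℓ_n ≥ 1`, `y_n ≥ 1` be any sequences of real numbers with `v_n ≥ ℓ_n` for large `n`; `v_n` may grow arbitrarily
fast. For almost all real `α` and for ALL `D ≥ 2` with `∑ ℓ_n / y_n ^ e(D) < ∞`: for all large `n` ALL the natural
numbers `A` with `|A - v_n α| ≤ ℓ_n` have an iterate under `F_D` which is at most `y_n`. Here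
`e(D) = 1 - h(log D / log (D + 1)) / log D > 0`, `h` being the `D`-ary entropy. For example
(`ℓ_n = n ^ U`, `y_n = n ^ V`, `e(D) V > U + 1`, `v_n` a tower of height `n`): ALL the integers within `n ^ U` of `v_n α`
descend below `n ^ V`, that is below a power of the iterated logarithm `log* A`.
-/

set_option autoImplicit false

namespace Pool.Agent.Results.MP_5317dd_nt.BoundedByTheIndex

open Filter MeasureTheory
open SharpPowerSaving (F)

/-- `e(D) = 1 - h(log D / log (D + 1)) / log D`, where `h` is the `D`-ary entropy -/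
noncomputable def expo (D : ℕ) : ℝ := 1 - Real.qaryEntropy D (Real.log D / Real.log (D + 1)) / Real.log D

/-- for all large `n`, ALL the natural numbers `A` with `|A - v_n α| ≤ ℓ_n` have an iterate under `F_D` which is at most
`y_n` -/
def AllDescend (D : ℕ) (v ℓ y : ℕ → ℝ) (α : ℝ) : Prop :=
  ∃ n₀ : ℕ, ∀ n : ℕ, n₀ ≤ n → ∀ A : ℕ, |(A : ℝ) - v n * α| ≤ ℓ n → ∃ k : ℕ, (((F D)^[k] A : ℕ) : ℝ) ≤ y n

/-- the exponent `e(D)` is positive -/
theorem expo_pos {D : ℕ} (hD : 2 ≤ D) : 0 < expo D := by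
  have h1 := (Pool.Agent.TH930.GH.hq_lt hD (Nat.lt_succ_self D) (SharpPowerSaving.pow_lt' D hD)).2
  have : Pool.Agent.TH930.GH.hq D (D + 1) = Real.qaryEntropy D (Real.log D / Real.log (D + 1)) / Real.log D := by
    unfold Pool.Agent.TH930.GH.hq Pool.Agent.TH930.GH.kq
    push_cast
    rfl
  unfold expo
  rw [← this]
  linarith

theorem core (D : ℕ) (hD : 2 ≤ D) (v ℓ y : ℕ → ℝ) (hℓ : ∀ n, 1 ≤ ℓ n) (hy : ∀ n, 1 ≤ y n)
    (hv : ∀ᶠ n in atTop, ℓ n ≤ v n) (hs : Summable fun n => ℓ n / y n ^ expo D) :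
    ∀ᵐ α : ℝ, AllDescend D v ℓ y α := by
  obtain ⟨c, hc0, hc1, C, hC, h⟩ := SharpPowerSaving.result D hD
  have hce : expo D ≤ c := hc1.le
  have hy0 : ∀ n, 0 < y n := fun n => lt_of_lt_of_le one_pos (hy n)
  have key := Pool.Agent.X67.GD.ae_steps_nat (fun n A => ∃ k : ℕ, (((F D)^[k] A : ℕ) : ℝ) ≤ y n) ℓ v
    (fun n => C / y n ^ c) (fun n => div_nonneg hC.le (Real.rpow_nonneg (hy0 n).le _)) (fun n H hH => ?_)
    (by filter_upwards [hv] with n hn using ⟨(hℓ n).trans hn, hn⟩) ?_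
  · filter_upwards [key] with α hα
    obtain ⟨n₀, hn₀⟩ := hα
    refine ⟨n₀, fun n hn A hA => ?_⟩
    rcases Nat.eq_zero_or_pos A with h0 | h0
    · refine ⟨0, ?_⟩
      rw [h0, Function.iterate_zero, id_eq, Nat.cast_zero]
      exact (hy0 n).le
    · exact hn₀ n hn A h0 hA
  · have h1 := h H (y n) (by exact_mod_cast hH) (hy n)
    have hset : {A : ℕ | 1 ≤ A ∧ A ≤ H ∧ ¬ ∃ k : ℕ, (((F D)^[k] A : ℕ) : ℝ) ≤ y n} =
        {A : ℕ | 1 ≤ A ∧ (A : ℝ) ≤ (H : ℝ) ∧ ∀ k : ℕ, y n < (((F D)^[k] A : ℕ) : ℝ)} := by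
      ext A
      simp only [Set.mem_setOf_eq, not_exists, not_le, Nat.cast_le]
    rw [hset]
    refine h1.trans (le_of_eq ?_)
    ring
  · refine Summable.of_nonneg_of_le (fun n => ?_) (fun n => ?_) (hs.mul_left C)
    · exact mul_nonneg (div_nonneg hC.le (Real.rpow_nonneg (hy0 n).le _)) (le_trans zero_le_one (le_max_right _ _))
    · rw [max_eq_left (hℓ n), div_mul_eq_mul_div, mul_div_assoc]
      refine mul_le_mul_of_nonneg_left ?_ hC.le
      exact div_le_div_of_nonneg_left (le_trans zero_le_one (hℓ n)) (Real.rpow_pos_of_pos (hy0 n) _)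
        (Real.rpow_le_rpow_of_exponent_le (hy n) hce)

/-- **Theorem.** `e(D) > 0` for all `D ≥ 2`. Let `v_n`, `ℓ_n ≥ 1`, `y_n ≥ 1` be real numbers with `v_n ≥ ℓ_n` for all large
`n`. For almost all real `α` and for ALL `D ≥ 2` with `∑ ℓ_n / y_n ^ e(D) < ∞`: for all large `n`, ALL the natural
numbers `A` with `|A - v_n α| ≤ ℓ_n` have an iterate under `F_D` which is at most `y_n`. -/
theorem result : (∀ D : ℕ, 2 ≤ D → 0 < expo D) ∧
    ∀ v ℓ y : ℕ → ℝ, (∀ n, 1 ≤ ℓ n) → (∀ n, 1 ≤ y n) → (∀ᶠ n in atTop, ℓ n ≤ v n) →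
      ∀ᵐ α : ℝ, ∀ D : ℕ, 2 ≤ D → (Summable fun n => ℓ n / y n ^ expo D) → AllDescend D v ℓ y α := by
  refine ⟨fun D hD => expo_pos hD, fun v ℓ y hℓ hy hv => ?_⟩
  rw [ae_all_iff]
  intro D
  by_cases h : 2 ≤ D ∧ Summable fun n => ℓ n / y n ^ expo D
  · filter_upwards [core D h.1 v ℓ y hℓ hy hv h.2] with α hα _ _
    exact hα
  · exact Eventually.of_forall fun α h1 h2 => absurd ⟨h1, h2⟩ h

end Pool.Agent.Results.MP_5317dd_nt.BoundedByTheIndex
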