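import Pool.Agent.Results.MP_5317dd_nt.SharpPowerSaving
import Pool.Agent.X283.DA.Dyadic

/-!
# Wiggin's maps: descent of ALL numbers in power windows and of ALL denominators, with Hausdorff dimensions

For `D ≥ 2` and `ε > 0` call `q ≥ 1` low if some iterate of `q` under Wiggin's map `F_D` is at most `q ^ ε`. There is
`c > 1 - h(D)`, `h(D)` the `D`-ary entropy of `log D / log (D + 1)`, such that with `s = max 0 (1 - c ε)`: for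
`0 ≤ θ < 1` and all `t > 1` outside a set of Hausdorff dimension at most `s / (1 - θ)` all numbers in the windows
`|A - t ^ κ_n| ≤ t ^ (θ κ_n)` are low for all large `n`, if `κ_n / log n → ∞`; the same for `n ^ t`, and for the denominators
of simultaneous inhomogeneous approximations. The number of exceptions is from the starting result `SharpPowerSaving`.
-/

set_option autoImplicit false

open Filter Topology MeasureTheory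

namespace Pool.Agent.Results.MP_5317dd_nt.ExceptionalDimensions

open SharpPowerSaving (F)
open Pool.Agent.X283.DA (Sparse sparse_of_dyadic pack AllNear AllDenominators)

/-- some iterate of `q` under `F_D` is at most `q ^ ε` (or `q = 0`) -/
def Low (D : ℕ) (ε : ℝ) (q : ℕ) : Prop := q = 0 ∨ ∃ k : ℕ, (((F D)^[k] q : ℕ) : ℝ) ≤ (q : ℝ) ^ ε

/-- `1 - h(D)`, `h(D)` the `D`-ary entropy (in base `D`) of `log D / log (D + 1)` -/
noncomputable def expo (D : ℕ) : ℝ := 1 - Real.qaryEntropy D (Real.log D / Real.log (D + 1)) / Real.log D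

lemma sparse {D : ℕ} {c C : ℝ} (hC : 0 < C) (h : ∀ X y : ℝ, 1 ≤ X → 1 ≤ y →
      ({n : ℕ | 1 ≤ n ∧ (n : ℝ) ≤ X ∧ ∀ k : ℕ, y < (((F D)^[k] n : ℕ) : ℝ)}.ncard : ℝ) ≤ C * X / y ^ c)
    {ε : ℝ} (hε : 0 < ε) : Sparse {q | ¬ Low D ε q} (max 0 (1 - c * ε)) := by
  refine sparse_of_dyadic (le_max_left _ _) fun δ hδ => ⟨2 * C, 1, fun K hK => ?_⟩
  have hK1 : (1 : ℝ) ≤ K := by exact_mod_cast hK
  have hK0 : (0 : ℝ) < K := by linarith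
  have h1 := h (2 * K) ((K : ℝ) ^ ε) (by linarith) (Real.one_le_rpow hK1 hε.le)
  have hfin : {n : ℕ | 1 ≤ n ∧ (n : ℝ) ≤ 2 * K ∧ ∀ k : ℕ, (K : ℝ) ^ ε < (((F D)^[k] n : ℕ) : ℝ)}.Finite := by
    refine (Set.finite_Iic (2 * K)).subset fun n hn => ?_
    have h2 : (n : ℝ) ≤ ((2 * K : ℕ) : ℝ) := by
      push_cast
      exact hn.2.1
    exact Set.mem_Iic.2 (by exact_mod_cast h2)
  have hsub : {n : ℕ | n ∈ {q | ¬ Low D ε q} ∧ K < n ∧ n ≤ 2 * K} ⊆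
      {n : ℕ | 1 ≤ n ∧ (n : ℝ) ≤ 2 * K ∧ ∀ k : ℕ, (K : ℝ) ^ ε < (((F D)^[k] n : ℕ) : ℝ)} := by
    rintro n ⟨hn, hKn, hn2⟩
    have hn' : ¬ (n = 0 ∨ ∃ k : ℕ, (((F D)^[k] n : ℕ) : ℝ) ≤ (n : ℝ) ^ ε) := hn
    push Not at hn'
    refine ⟨by omega, by exact_mod_cast hn2, fun k => lt_of_le_of_lt ?_ (hn'.2 k)⟩
    exact Real.rpow_le_rpow hK0.le (by exact_mod_cast hKn.le) hε.le
  have h2 : ({n : ℕ | n ∈ {q | ¬ Low D ε q} ∧ K < n ∧ n ≤ 2 * K}.ncard : ℝ) ≤ C * (2 * K) / ((K : ℝ) ^ ε) ^ c :=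
    le_trans (by exact_mod_cast Set.ncard_le_ncard hsub hfin) h1
  refine h2.trans ?_
  have h3 : C * (2 * (K : ℝ)) / ((K : ℝ) ^ ε) ^ c = 2 * C * (K : ℝ) ^ (1 - c * ε) := by
    rw [← Real.rpow_mul hK0.le, Real.rpow_sub hK0, Real.rpow_one, mul_comm c ε]
    ring
  rw [h3]
  refine mul_le_mul_of_nonneg_left (Real.rpow_le_rpow_of_exponent_le hK1 ?_) (by linarith)
  have := le_max_right 0 (1 - c * ε)
  linarith

/-- **Theorem.** -/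
theorem result (D : ℕ) (hD : 2 ≤ D) : ∃ c : ℝ, 0 < c ∧ expo D < c ∧ ∀ ε s : ℝ, 0 < ε → s = max 0 (1 - c * ε) →
    (∀ (κ : ℕ → ℝ) (θ : ℝ), Tendsto (fun n : ℕ => κ n / Real.log n) atTop atTop → 0 ≤ θ → θ < 1 →
      (∃ E : Set ℝ, dimH E ≤ ENNReal.ofReal (s / (1 - θ)) ∧
        ∀ t : ℝ, 1 < t → t ∉ E → AllNear (Low D ε) (fun n => t ^ κ n) θ) ∧
      (s + θ < 1 → ∀ᵐ t : ℝ, 1 < t → AllNear (Low D ε) (fun n => t ^ κ n) θ)) ∧
    (∀ θ : ℝ, 0 ≤ θ → θ < 1 →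
      (∀ a : ℝ, 0 < a → ∃ E : Set ℝ, dimH E ≤ ENNReal.ofReal ((s + 1 / a) / (1 - θ)) ∧
        ∀ t : ℝ, a ≤ t → t ∉ E → AllNear (Low D ε) (fun n => (n : ℝ) ^ t) θ) ∧
      (s + θ < 1 → ∀ᵐ t : ℝ, 1 / (1 - s - θ) < t → AllNear (Low D ε) (fun n => (n : ℝ) ^ t) θ)) ∧
    (∀ (d : ℕ) (θ y : Fin d → ℝ), (∀ i, 0 ≤ θ i) → s < ∑ i, θ i →
      ∀ᵐ x : Fin d → ℝ, AllDenominators (Low D ε) x y θ) ∧
    (∀ θ y : ℝ, 0 ≤ θ → ∃ E : Set ℝ, dimH E ≤ ENNReal.ofReal ((1 + s) / (1 + θ)) ∧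
      ∀ x : ℝ, x ∉ E → ∃ q₀ : ℕ, ∀ q : ℕ, q₀ ≤ q →
        (∃ p : ℤ, |(q : ℝ) * x - p - y| ≤ (q : ℝ) ^ (-θ)) → Low D ε q) := by
  obtain ⟨c, hc0, hc, C, hC, h⟩ := SharpPowerSaving.result D hD
  refine ⟨c, hc0, hc, fun ε s hε hs => ?_⟩
  subst hs
  exact pack (Low D ε) (le_max_left _ _) (sparse hC h hε)

end Pool.Agent.Results.MP_5317dd_nt.ExceptionalDimensions
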