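import Pool.Agent.X16.WG.C

/-!
# Record holders of the maximum excursion under Wiggin's maps `F_D`

For every `D ≥ 2` call `n` a record holder if some iterate of `n` under `F_D` exceeds all iterates of all smaller
positive integers. (1) The number of record holders up to `x` is `O(x ^ η)`, with `η < 1` the `D`-ary entropy of
`log D / log (D + 1)`. (2) The last record holder up to `n` has an iterate of size at least
`(D + 1) ^ a - 1` if `D ^ a ≤ n + 1`, so at least about `n ^ (log (D + 1) / log D)`. (3) There are infinitely many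
record holders if and only if all trajectories are bounded.

Proof of (1): the number `D ^ a - 1` climbs to `(D + 1) ^ a - 1`. So a record holder `n` between `D ^ a` and
`D ^ (a + 1)` climbs to `(D + 1) ^ a`, and it does not drop below `n` before (the smaller number would have the same
later iterates). Since a step of the accelerated map multiplies by at most about `(D + 1) / D`, this takes at least
`a - c` accelerated steps with a constant `c`, and the itineraries of length `a - c` which do not drop are counted
with their generating function.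
-/

set_option autoImplicit false

namespace Pool.Agent.Results.MP_5317dd_nt.ExcursionRecords

/-- Wiggin's map `F_D`. -/
def F (D x : ℕ) : ℕ :=
  if x % D = 0 then x / D
  else if x % D = D - 1 then (D + 1) * x + 1
  else (D + 1) * x - x % D

/-- `n ≥ 1` is a record holder: some iterate of `n` exceeds all iterates of all smaller positive integers. -/
def IsRecord (D n : ℕ) : Prop :=
  1 ≤ n ∧ ∃ k : ℕ, ∀ m j : ℕ, 1 ≤ m → m < n → (F D)^[j] m < (F D)^[k] n

/-- the `D`-ary entropy `(-θ log θ - (1 - θ) log (1 - θ) + θ log (D - 1)) / log D` of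
`θ = log D / log (D + 1)` -/
noncomputable def ent (D : ℕ) : ℝ :=
  (Real.binEntropy (Real.log D / Real.log (D + 1)) +
    Real.log D / Real.log (D + 1) * Real.log (D - 1)) / Real.log D

/-- **Theorem.** Record holders of the maximum excursion under `F_D`. -/
theorem result (D : ℕ) (hD : 2 ≤ D) :
    -- (1) their number, with a power saving
    (0 < ent D ∧ ent D < 1 - 1 / (30 * D * Real.log D) ∧
      ∃ K : ℝ, 0 < K ∧ ∀ x : ℝ, 1 ≤ x →
        ({n : ℕ | (n : ℝ) ≤ x ∧ IsRecord D n}.ncard : ℝ) ≤ K * x ^ ent D) ∧
    -- (2) their excursions, compared with the next record holder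
    (∀ r n a : ℕ, IsRecord D r → (∀ m, r < m → m ≤ n → ¬ IsRecord D m) → D ^ a ≤ n + 1 →
      ∃ i : ℕ, (D + 1) ^ a - 1 ≤ (F D)^[i] r) ∧
    -- (3) unbounded trajectories
    ({n : ℕ | IsRecord D n}.Infinite ↔ ∀ m, 1 ≤ m → ∃ B, ∀ j, (F D)^[j] m ≤ B) := by
  have hF := Pool.Agent.X16.WG.ent_facts hD
  refine ⟨⟨hF.1, hF.2, ?_⟩, fun r n a hr hno ha => ?_, Pool.Agent.X16.WG.infinite_iff⟩
  · obtain ⟨s, hs, h⟩ := Pool.Agent.X16.WG.ent_eq hD
    exact Pool.Agent.X16.WG.total hD hs hF.1 h.le
  · obtain ⟨i, hi⟩ := Pool.Agent.X16.WG.lower hD hr hno ha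
    exact ⟨i, by
      have h : (D + 1) ^ a ≤ (F D)^[i] r + 1 := hi
      omega⟩

end Pool.Agent.Results.MP_5317dd_nt.ExcursionRecords
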