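import Mathlib
import Pool.Agent.X61.CU.Map

set_option autoImplicit false

/-!
# Perfect powers are rare on the trajectories and on the cycles of the maps `F_D`

Let `D ≥ 3`, `n ≥ 2` and let `S` be a finite set of primes. The terms of the form `s y ^ n` not divisible by `D`, where `y` is
an integer and all prime factors of `s` are in `S`, have density zero in every trajectory of `F_D` which is not
eventually periodic, and their proportion is at most `ε` on all but finitely many cycles. The same holds for the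
terms `z` for which `den(r) z - num(r)` is of this form, if `r` is a rational number fixed by no nonempty composition of
the branches of `F_D`.
-/

namespace Pool.Agent.Results.MP_5317dd_nt.PerfectPowers

open Filter Topology

/-- The map `F_D` on the integers. -/
def F (D : ℕ) (x : ℤ) : ℤ :=
  if x % D = 0 then x / D else if x % D = D - 1 then (D + 1) * x + 1 else (D + 1) * x - x % D

/-- `Z` is a cycle of `F_D`. -/
def IsCycle (D : ℕ) (Z : Finset ℤ) : Prop :=
  ∃ (x : ℤ) (p : ℕ), 1 ≤ p ∧ (F D)^[p] x = x ∧ Z = (Finset.range p).image fun i => (F D)^[i] x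

/-- `z = s * y ^ n` for integers `s ≠ 0` and `y`, where all prime factors of `s` are in `S`. -/
def PowerTimesUnit (S : Finset ℕ) (n : ℕ) (z : ℤ) : Prop :=
  ∃ s y : ℤ, (s ≠ 0 ∧ ∀ p : ℕ, p.Prime → (p : ℤ) ∣ s → p ∈ S) ∧ z = s * y ^ n

/-- The branches `z / D` (`j = 0`), `(D + 1) z - j` (`1 ≤ j ≤ D - 2`), `(D + 1) z + 1` (`j = D - 1`) of `F_D`, on the
rational numbers. -/
def branch (D : ℕ) (z : ℚ) (j : ℕ) : ℚ :=
  if j = 0 then z / D else if j = D - 1 then (D + 1) * z + 1 else (D + 1) * z - j

/-- `A` is one of the following sets: the integers not divisible by `D` which are products of an integer with all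
prime factors in `S` and an `n`-th power; for a rational number `r` which is not fixed by any nonempty composition of the
branches `j < D`, the integers `z` such that `r.den * z - r.num` is such a product. -/
def Admissible (D : ℕ) (S : Finset ℕ) (n : ℕ) (A : Set ℤ) : Prop :=
  A = {z | ¬ (D : ℤ) ∣ z ∧ PowerTimesUnit S n z} ∨
  ∃ r : ℚ, (∀ w : List ℕ, w ≠ [] → (∀ j ∈ w, j < D) → w.foldl (branch D) r ≠ r) ∧
    A = {z | PowerTimesUnit S n (r.den * z - r.num)}

/-- The number of indices `k < N` with `F_D^[k] x ∈ A`. -/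
noncomputable def visits (D : ℕ) (A : Set ℤ) (x : ℤ) (N : ℕ) : ℕ := {k : ℕ | k < N ∧ (F D)^[k] x ∈ A}.ncard

open Pool.Agent.X61.CU

/-- the residue class as a natural number below `D` -/
def rs (D : ℕ) (hD : 2 ≤ D) (x : ℤ) : Fin D :=
  ⟨(x % D).toNat, by
    have h1 := Int.emod_nonneg x (show (D : ℤ) ≠ 0 by omega)
    have h2 := Int.emod_lt_of_pos x (show (0 : ℤ) < D by omega)
    omega⟩

/-- `F_D` as a map with affine branches -/
def M (D : ℕ) (hD : 2 ≤ D) : PA (Fin D) where
  f := F D
  br := rs D hD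
  al j := if (j : ℕ) = 0 then 1 / D else D + 1
  be j := if (j : ℕ) = 0 then 0 else if (j : ℕ) = D - 1 then 1 else -(j : ℕ)
  ne j := by
    split_ifs
    · have : (D : ℚ) ≠ 0 := by
        have : D ≠ 0 := by omega
        exact_mod_cast this
      positivity
    · positivity
  eq x := by
    have h1 := Int.emod_nonneg x (show (D : ℤ) ≠ 0 by omega)
    have h2 := Int.emod_lt_of_pos x (show (0 : ℤ) < D by omega)
    have hr : ((rs D hD x : Fin D) : ℕ) = (x % D).toNat := rfl
    rw [hr]
    unfold F
    by_cases h0 : x % D = 0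
    · have e1 : (x % D).toNat = 0 := by omega
      rw [if_pos h0, if_pos e1, if_pos e1]
      obtain ⟨y, hy⟩ : (D : ℤ) ∣ x := Int.dvd_of_emod_eq_zero h0
      have hD0 : (D : ℚ) ≠ 0 := by
        have : D ≠ 0 := by omega
        exact_mod_cast this
      rw [hy, Int.mul_ediv_cancel_left _ (by omega : (D : ℤ) ≠ 0)]
      push_cast
      field_simp
      ring
    · have e1 : ¬ (x % D).toNat = 0 := by omega
      rw [if_neg h0, if_neg e1, if_neg e1]
      by_cases h3 : x % D = D - 1
      · have e2 : (x % D).toNat = D - 1 := by omega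
        rw [if_pos h3, if_pos e2]
        push_cast
        ring
      · have e2 : ¬ (x % D).toNat = D - 1 := by omega
        rw [if_neg h3, if_neg e2]
        have e3 : (((x % D).toNat : ℕ) : ℤ) = x % D := Int.toNat_of_nonneg h1
        have e4 : (((x % D).toNat : ℕ) : ℚ) = ((x % D : ℤ) : ℚ) := by
          rw [← e3]
          push_cast
          rfl
        rw [e4]
        push_cast
        ring

theorem visits_eq (D : ℕ) (A : Set ℤ) (x : ℤ) (N : ℕ) :
    visits D A x N = cnt (F D) (fun z => z ∈ A) x N := by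
  classical
  unfold visits cnt
  rw [← Set.ncard_coe_finset]
  congr 1
  ext k
  simp

theorem fold_eq (D : ℕ) (hD : 2 ≤ D) (w : ℕ → Fin D) (k : ℕ) : ∃ L : List ℕ, L.length = k ∧
    (∀ j ∈ L, j < D) ∧ ∀ z : ℚ, L.foldl (branch D) z = (M D hD).sl w k * z + (M D hD).co w k := by
  induction k with
  | zero => exact ⟨[], rfl, fun j hj => absurd hj List.not_mem_nil, fun z => by simp [PA.sl, PA.co]⟩
  | succ k ih =>
    obtain ⟨L, h1, h2, h3⟩ := ih
    refine ⟨L ++ [(w k : ℕ)], by rw [List.length_append, h1]; rfl, fun j hj => ?_, fun z => ?_⟩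
    · rw [List.mem_append, List.mem_singleton] at hj
      rcases hj with hj | hj
      · exact h2 j hj
      · rw [hj]; exact (w k).2
    · rw [List.foldl_append, h3]
      simp only [List.foldl_cons, List.foldl_nil, PA.sl, PA.co, branch, M]
      split_ifs
      · ring
      · ring
      · ring

theorem free_zero (D : ℕ) (hD : 2 ≤ D) : (M D hD).Free (fun z => ¬ (D : ℤ) ∣ z) 0 := by
  intro x k hx _ hk
  -- the constants `b` of the branches other than the first are not divisible by `D + 1`
  have hb : ∀ j : Fin D, (j : ℕ) ≠ 0 → ∃ b : ℤ, (M D hD).be j = b ∧ ¬ ((D : ℤ) + 1) ∣ b := by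
    intro j hj
    by_cases h1 : (j : ℕ) = D - 1
    · refine ⟨1, ?_, ?_⟩
      · simp only [M, if_neg hj, if_pos h1]
        norm_num
      · intro h
        have := Int.le_of_dvd one_pos h
        omega
    · refine ⟨-(j : ℕ), ?_, ?_⟩
      · simp only [M, if_neg hj, if_neg h1]
        push_cast
        rfl
      · intro h
        rw [dvd_neg] at h
        have h2 := Int.le_of_dvd (by omega) h
        have := j.2
        omega
  have hDQ : (D : ℚ) ≠ 0 := by
    have : D ≠ 0 := by omega
    exact_mod_cast this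
  have h : ∀ k : ℕ, ∃ (c : ℤ) (v : ℕ), (M D hD).co ((M D hD).wd x) (k + 1) = c / (D : ℚ) ^ v ∧
      ¬ ((D : ℤ) + 1) ∣ c := by
    intro k
    induction k with
    | zero =>
      have h0 : (((M D hD).wd x 0 : Fin D) : ℕ) ≠ 0 := by
        intro h0
        apply hx
        have h1 : (x % D).toNat = 0 := h0
        have h2 := Int.emod_nonneg x (show (D : ℤ) ≠ 0 by omega)
        exact Int.dvd_of_emod_eq_zero (by omega)
      obtain ⟨b, hb1, hb2⟩ := hb _ h0
      refine ⟨b, 0, ?_, hb2⟩
      rw [PA.co, PA.co, hb1]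
      simp
    | succ k ih =>
      obtain ⟨c, v, h1, h2⟩ := ih
      rw [PA.co, h1]
      by_cases h0 : (((M D hD).wd x (k + 1) : Fin D) : ℕ) = 0
      · refine ⟨c, v + 1, ?_, h2⟩
        have e1 : (M D hD).al ((M D hD).wd x (k + 1)) = 1 / D := by
          change (if (((M D hD).wd x (k + 1) : Fin D) : ℕ) = 0 then (1 : ℚ) / D else D + 1) = _
          rw [if_pos h0]
        have e2 : (M D hD).be ((M D hD).wd x (k + 1)) = 0 := by
          change (if (((M D hD).wd x (k + 1) : Fin D) : ℕ) = 0 then (0 : ℚ) else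
            if (((M D hD).wd x (k + 1) : Fin D) : ℕ) = D - 1 then 1 else
              -((((M D hD).wd x (k + 1) : Fin D) : ℕ) : ℚ)) = _
          rw [if_pos h0]
        rw [e1, e2, pow_succ]
        field_simp
        ring
      · obtain ⟨b, hb1, hb2⟩ := hb _ h0
        refine ⟨(D + 1) * c + b * D ^ v, v, ?_, ?_⟩
        · have e1 : (M D hD).al ((M D hD).wd x (k + 1)) = D + 1 := by
            change (if (((M D hD).wd x (k + 1) : Fin D) : ℕ) = 0 then (1 : ℚ) / D else D + 1) = _
            rw [if_neg h0]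
          rw [e1, hb1]
          push_cast
          field_simp
        · intro h3
          have h4 : ((D : ℤ) + 1) ∣ b * D ^ v := (dvd_add_right (dvd_mul_right _ _)).1 h3
          have h5 : IsCoprime ((D : ℤ) + 1) ((D : ℤ) ^ v) := by
            refine IsCoprime.pow_right ⟨1, -1, by ring⟩
          exact hb2 (h5.dvd_of_dvd_mul_right h4)
  obtain ⟨j, rfl⟩ : ∃ j, k = j + 1 := ⟨k - 1, by omega⟩
  rw [mul_zero, zero_add]
  obtain ⟨c, v, h1, h2⟩ := h j
  rw [h1]
  intro h3
  rw [div_eq_zero_iff] at h3
  rcases h3 with h3 | h3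
  · have : c = 0 := by exact_mod_cast h3
    rw [this] at h2
    exact h2 (dvd_zero _)
  · exact pow_ne_zero _ hDQ h3

theorem window_all {D : ℕ} (hD : 2 ≤ D) {S : Finset ℕ} (hS : ∀ p ∈ S, p.Prime) {n : ℕ} (hn : 2 ≤ n)
    {A : Set ℤ} (hA : Admissible D S n A) (J : ℕ) :
    {x : ℤ | 2 < cnt (F D) (fun z => z ∈ A) x J}.Finite := by
  have key : {x : ℤ | ∃ i j k : ℕ, i < j ∧ j < k ∧ k < J ∧ (F D)^[i] x ∈ A ∧ (F D)^[j] x ∈ A ∧
      (F D)^[k] x ∈ A}.Finite := by
    rcases hA with rfl | ⟨r, hr, rfl⟩
    · refine PA.window (M D hD) (free_zero D hD) n hn S hS _ ?_ J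
      rintro z ⟨h1, s, y, h2, h3⟩
      refine ⟨h1, s, y, h2, ?_⟩
      simpa using h3
    · refine PA.window (M D hD) (Q := fun _ => True) (r := r) ?_ n hn S hS _
        (fun z hz => ⟨trivial, hz⟩) J
      intro x k _ _ hk h1
      obtain ⟨L, h2, h3, h4⟩ := fold_eq D hD ((M D hD).wd x) k
      refine hr L ?_ h3 (by rw [h4, h1])
      intro h5
      rw [h5, List.length_nil] at h2
      omega
  exact key.subset fun x hx => three_of_cnt hx

/-- **Theorem.** Let `D ≥ 3` and `n ≥ 2`, let `S` be a finite set of primes and let `A` be the set of the integers not divisible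
by `D` of the form `s * y ^ n` (all prime factors of `s` in `S`), or the set of the integers `z` such
that `r.den * z - r.num` is of this form, where the rational number `r` is not fixed by any nonempty
composition of the branches of `F_D`.

(1) For every `ε > 0` there is a finite set `E` of integers such that every integer `x` whose trajectory under `F_D` does
not meet `E` satisfies, for all `N`: at most `ε N + 2` of the first `N` terms of the trajectory are in `A`.

(2) For every `ε > 0` all but finitely many cycles `Z` of `F_D` have at most `ε |Z|` elements in `A`.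

(3) In every trajectory of `F_D` which is not eventually periodic the terms in `A` have density zero. -/
theorem result (D : ℕ) (hD3 : 3 ≤ D) (n : ℕ) (hn : 2 ≤ n) (S : Finset ℕ) (hS : ∀ p ∈ S, p.Prime)
    (A : Set ℤ) (hA : Admissible D S n A) :
    (∀ ε : ℝ, 0 < ε → ∃ E : Finset ℤ, ∀ x : ℤ, (∃ k : ℕ, (F D)^[k] x ∈ E) ∨
      ∀ N : ℕ, (visits D A x N : ℝ) ≤ ε * N + 2) ∧
    (∀ ε : ℝ, 0 < ε →
      {Z : Finset ℤ | IsCycle D Z ∧ ε * Z.card < (((Z : Set ℤ) ∩ A).ncard : ℝ)}.Finite) ∧
    ∀ x : ℤ, (∀ i j : ℕ, (F D)^[i] x = (F D)^[j] x → i = j) →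
      Tendsto (fun N : ℕ => (visits D A x N : ℝ) / N) atTop (𝓝 0) := by
  classical
  have hD : 2 ≤ D := by omega
  have h1 : ∀ ε : ℝ, 0 < ε → ∃ E : Finset ℤ, ∀ x : ℤ, (∃ k : ℕ, (F D)^[k] x ∈ E) ∨
      ∀ N : ℕ, (cnt (F D) (fun z => z ∈ A) x N : ℝ) ≤ ε * N + ((2 : ℕ) : ℝ) :=
    fun ε hε => rare_traj (window_all hD hS hn hA) ε hε
  refine ⟨fun ε hε => ?_, fun ε hε => ?_, fun x hx => ?_⟩
  · obtain ⟨E, hE⟩ := h1 ε hε
    refine ⟨E, fun x => (hE x).imp id fun h N => ?_⟩
    rw [visits_eq]
    have := h N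
    push_cast at this
    exact this
  · refine (rare_cyc h1 ε hε).subset ?_
    rintro Z ⟨hZ, hlt⟩
    refine ⟨hZ, lt_of_lt_of_eq hlt ?_⟩
    have e : (Z : Set ℤ) ∩ A = ((Z.filter fun z => z ∈ A : Finset ℤ) : Set ℤ) := by
      ext z
      simp
    rw [e, Set.ncard_coe_finset]
  · refine (rare_inj h1 x hx).congr fun N => ?_
    rw [visits_eq]

end Pool.Agent.Results.MP_5317dd_nt.PerfectPowers
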